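import Pool.Agent.Y472.C.Defs

/-!
# Closed 3-braids with many twist regions and any number of full twists: statements

The constants do not depend on the number of twist regions.
-/

set_option autoImplicit false

namespace Pool.Agent.Y472

open Finset Filter Topology Metric
open Pool.Agent.W711.HT
open Pool.Agent.Y481 (itI itN Sep wts cw)
open scoped Real

/-- POTN: the potential of the ring, second derivative in the variable of the axis -/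
def S_POTN : Prop := ∀ (ρ₀ c C : ℝ) (s dl : ℂ → ℂ → ℂ → ℂ), SD3 ρ₀ c C s dl →
  ∃ R c' c₂ B₂ : ℝ, 0 < R ∧ R ≤ ρ₀ ∧ 0 < c' ∧ 0 < c₂ ∧ 0 < B₂ ∧ ∀ n : ℕ, 2 ≤ n →
    ∃ B : ℝ, 0 < B ∧ Pot (n + 1) R c' B bet (Sr s n) (Dr s n) ∧
      ∀ ψ ∈ Bx (n + 1) R,
        (deriv (fun w => Dr s n n (Function.update ψ n w)) (ψ n)).re ≤ -(c₂ * n) ∧
        ‖deriv (fun w => Dr s n n (Function.update ψ n w)) (ψ n)‖ ≤ B₂ * n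

/-- XLN: asymptotics of `XN`; `R`, `c₂`, `B₂` do not depend on `k` -/
def S_XLN : Prop := S_POTN → S_CR → S_EL → S_MWK3 → S_KB3 → ∀ (ρ₀ c C : ℝ)
  (s dl : ℂ → ℂ → ℂ → ℂ), SD3 ρ₀ c C s dl →
  ∃ R c₂ B₂ : ℝ, 0 < R ∧ R ≤ 1 ∧ R ≤ ρ₀ ∧ 0 < c₂ ∧ 0 < B₂ ∧ ∀ k : ℕ, 1 ≤ k →
    ∃ B C' M : ℝ, 0 < B ∧ 0 < C' ∧ 0 < M ∧ ∀ ls : List (ℤ × ℤ), ls.length = k →
      (∀ p ∈ ls, M ≤ |(p.1 : ℝ)| ∧ M ≤ |(p.2 : ℝ)|) → ∃ (G : ℂ → ℂ) (z : ℂ → ℕ → ℂ),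
        DifferentiableOn ℂ G (Rc R R) ∧ (∀ χ ∈ Rc R R, G (-χ) = G χ) ∧
        (∀ χ ∈ Rc R R, ‖G χ‖ ≤ B ∧ (deriv (deriv G) χ).re ≤ -(c₂ * k) ∧
          ‖deriv (deriv G) χ‖ ≤ B₂ * k) ∧
        MW (XN ls) G (Rc R R) ∧
        (∀ χ ∈ Rc R R, (∀ j < 2 * k, z χ j ∈ Rc ρ₀ ρ₀ ∧ 0 < (z χ j).im ∧
            ‖z χ j‖ ≤ 1 / 10 ∧
          Complex.I * cw ls ((j + 1) % (2 * k)) * z χ ((j + 1) % (2 * k)) / (2 * π) + Complex.I +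
            deriv (fun w => s (z χ j) w χ) (z χ ((j + 1) % (2 * k))) +
            deriv (fun w => s w (z χ (((j + 1) % (2 * k) + 1) % (2 * k))) χ)
              (z χ ((j + 1) % (2 * k))) = 0) ∧
          deriv G χ = ∑ j ∈ range (2 * k), deriv (fun w => s (z χ j) (z χ ((j + 1) % (2 * k))) w) χ ∧
          G χ = ∑ j ∈ range (2 * k), (Complex.I * cw ls j * z χ j ^ 2 / (4 * π) +
            Complex.I * z χ j + s (z χ j) (z χ ((j + 1) % (2 * k))) χ)) ∧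
        ∀ m : ℝ, (∀ p ∈ ls, m ≤ |(p.1 : ℝ)| ∧ m ≤ |(p.2 : ℝ)|) → 0 < m →
          ‖G 0 - ((4 * k * bet : ℝ) : ℂ)‖ ≤ C' / m

/-- CHIN: the sum over the values `χ = 2 π p / N`, for all `m`, if `k` is large -/
def S_CHIN : Prop := ∀ (R c₂ B₂ : ℝ), 0 < R → R ≤ 1 → 0 < c₂ → 0 < B₂ →
  ∃ C K : ℝ, 0 < C ∧ 0 < K ∧ ∀ k : ℕ, K ≤ k → ∀ (X : ℕ → ℂ → ℂ) (G : ℂ → ℂ),
    (∀ N, Differentiable ℂ (X N)) → (∀ N z, X N (-z) = X N z) →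
    DifferentiableOn ℂ G (Rc R R) → (∀ z ∈ Rc R R, G (-z) = G z) →
    (∃ B : ℝ, ∀ z ∈ Rc R R, ‖G z‖ ≤ B) →
    (∀ z ∈ Rc R R, (deriv (deriv G) z).re ≤ -(c₂ * k) ∧ ‖deriv (deriv G) z‖ ≤ B₂ * k) →
    MW X G (Rc R R) → ∀ m : ℤ, ∃ z : ℂ, z ∈ Rc (R / 4) (R / 4) ∧ 0 < z.im ∧ ‖z‖ ≤ C / k ∧
      Complex.I * m * z / π + Complex.I + deriv G z = 0 ∧
      ‖Complex.I * m * z ^ 2 / (2 * π) + Complex.I * z + G z - G 0‖ ≤ C / k ∧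
      Tendsto (fun N : ℕ => Real.log ‖∑ p ∈ Icc (-(⌊R / 4 * N / (2 * π)⌋₊ : ℤ)) ⌊R / 4 * N / (2 * π)⌋₊,
        deriv (fun χ => wE N m χ * X N χ) (2 * π * p / N)‖ / N) atTop
        (𝓝 (Complex.I * m * z ^ 2 / (2 * π) + Complex.I * z + G z).re)

/-- MAIN3N: the growth rate, for all `m`, if `k` is large -/
def S_MAIN3N : Prop := ∃ (ρ₀ c C : ℝ) (s dl : ℂ → ℂ → ℂ → ℂ), SD3 ρ₀ c C s dl ∧
  ∃ K : ℕ, ∀ k : ℕ, K ≤ k → ∃ M : ℝ, ∀ (ls : List (ℤ × ℤ)) (m : ℤ), ls.length = k →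
    (∀ p ∈ ls, M ≤ |(p.1 : ℝ)| ∧ M ≤ |(p.2 : ℝ)|) →
    ∃ (z : ℕ → ℂ) (χ : ℂ), RCrit3 s ρ₀ (2 * k) (cw ls) m z χ ∧
      Tendsto (fun N : ℕ => Real.log ‖Pool.Agent.H550R3.Jones.cjones N 2 (ftw m ++ bw ls) (vN N)‖ / N)
        atTop (𝓝 (RVal3 s (2 * k) (cw ls) m z χ).re)

end Pool.Agent.Y472
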